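import Pool.Agent.Helper94.PB.VEX1
import Pool.Agent.Helper42.PW.Goals4

/-!
# Project W (MP_fc6b1e_nt), packet W_EX1: existence of `TauW` with `NrmInd` for `χ₀ = 1`

Adapted from `Pool/Agent/Helper94/PB/VEX1.lean`.
-/

set_option autoImplicit false

namespace Pool.Agent.Helper49.PW

open NumberField Polynomial Module IsDedekindDomain
open Pool.Agent.Helper51.SigLeo (IwasawaLog)
open Pool.Agent.Helper51.RP Pool.Agent.Helper42.RD Pool.Agent.Helper42.PP
open Pool.Agent.Helper42.PP1 (SitW)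
open Pool.Agent.Helper42.PB Pool.Agent.Helper76.PB Pool.Agent.Helper11.PB
open Pool.Agent.Helper42.PW
open Pool.Agent.Helper94.PP1 (up_self natDegree_one' pol_one)
open Pool.Agent.Helper94.PB (sum_insert insert_zero kil_comb comb_zero cop_KM₁)

section drop

variable {p : ℕ} [Fact p.Prime] {k : Type} [NormedField k] {K M K₁ M₁ : Type} [Field K]
    [NumberField K] [Field M] [NumberField M] [Field K₁] [NumberField K₁] [Field M₁]
    [NumberField M₁] [Algebra K M] [Algebra K K₁] [Algebra K M₁] [Algebra M M₁] [Algebra K₁ M₁]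
    {ε : K₁} {δ : M ≃ₐ[K] M} {P : (ZMod p)[X]} {B : Base p K M K₁ M₁ ε δ P} {M₂ : Type}
    [Field M₂] [NumberField M₂] [Algebra K M₂] [Algebra M M₂] [Algebra K₁ M₂] {a₀ : M₂ˣ}
    {L : IwasawaLog p k} {T : Set (K →+* k)} {aτ : K₁ˣ}

/-- Removing one functional. -/
theorem dropW {n : ℕ} (E : TauW (n + 1) B a₀ L T aτ) (j₀ : Fin (n + 1))
    (hj : ∀ β : Fin (n + 1) → AdjoinRoot P, (∀ i, ∑ j, β j * E.h j (B.u i) = 0) →
      (∀ x : M₂ˣ, ∑ j, β j * E.h j (nrm M M₂ x) = 0) → β j₀ = 0 → β = 0) :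
    ∃ E' : TauW n B a₀ L T aτ, NrmInd E'.toTauF M₂ := by
  refine ⟨⟨⟨fun j => E.h (j₀.succAbove j), fun j => E.hP _, fun j => E.hL _, ?_⟩,
    fun j => E.hS _⟩, ?_⟩
  · intro c hc
    refine insert_zero j₀ c (E.hI _ fun x => ?_)
    rw [sum_insert j₀ c (fun j => E.h j x)]
    exact hc x
  · intro c h1 h2
    refine insert_zero j₀ c (hj _ (fun i => ?_) (fun x => ?_) ?_)
    · rw [sum_insert j₀ c (fun j => E.h j (B.u i))]
      exact h1 i
    · rw [sum_insert j₀ c (fun j => E.h j (nrm M M₂ x))]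
      exact h2 x
    · rw [Fin.insertNth_apply_same]

end drop

section one

variable {p : ℕ} [hp : Fact p.Prime] {k : Type} [NormedField k] [NormedAlgebra ℚ_[p] k]
    [IsUltrametricDist k] [CompleteSpace k] {K K₁ J M₂ : Type} [Field K]
    [NumberField K] [Field K₁] [NumberField K₁] [Field J] [NumberField J] [Field M₂]
    [NumberField M₂] [Algebra K K₁] [Algebra K J] [Algebra K M₂] [Algebra K₁ M₂] [Algebra J M₂]
    {ε : K₁} {a₀ : M₂ˣ}

/-- Existence of `TauW` for `χ₀ = 1`, with `|S| + |T|` conditions. -/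
theorem extW1 (hEXT : V_EXTW) (hk : Nonempty (AlgebraicClosure ℚ →+* k))
    (hB : SitBs p K K K₁ K₁ J M₂ ε (1 : K ≃ₐ[K] K) (X - 1) a₀) (L : IwasawaLog p k)
    (T : Set (K →+* k)) (B : Base p K K K₁ K₁ ε (1 : K ≃ₐ[K] K) (X - 1)) (a : K₁ˣ)
    (haO : OmType p K ε (a : K₁)) : Nonempty (TauW (B.S.card + T.ncard) B a₀ L T a) := by
  refine hEXT p k hk K K K₁ K₁ J M₂ ε 1 (X - 1) a₀ hB L T B a haO _ fun 𝔪₀ v hv => ?_
  obtain ⟨G, hG, hGp, -⟩ := Pool.Agent.Helper90.RP.s_sub p k L K K (1 : K ≃ₐ[K] K) T (up K B.S)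
    𝔪₀ v hv
  obtain ⟨F, hFc, hF⟩ := Pool.Agent.Helper96.LE.l_lob Pool.Agent.Helper16.LE.l_log p k hk L K T
    (up K B.S) 𝔪₀ v hv
  refine ⟨F, ?_, fun x _ => ?_, ?_⟩
  · rw [hFc, natDegree_one', one_mul, up_self, Set.ncard_coe_finset]
  · rw [← hG, pol_one]
    exact hGp _ ⟨x, rfl⟩
  · rw [Pool.Agent.Helper58.LE.above_self]
    exact hF

/-- `J = K`. -/
theorem ext_oneW (hEXT : V_EXTW) (hk : Nonempty (AlgebraicClosure ℚ →+* k))
    (hB : SitBs p K K K₁ K₁ J M₂ ε (1 : K ≃ₐ[K] K) (X - 1) a₀) (hJ : finrank K J = 1)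
    (L : IwasawaLog p k)
    (T : Set (K →+* k)) (B : Base p K K K₁ K₁ ε (1 : K ≃ₐ[K] K) (X - 1)) (a : K₁ˣ)
    (haO : OmType p K ε (a : K₁)) :
    ∃ E : TauW (B.S.card + T.ncard) B a₀ L T a, NrmInd E.toTauF M₂ := by
  obtain ⟨E⟩ := extW1 hEXT hk hB L T B a haO
  refine ⟨E, fun β _ hβ => ?_⟩
  have := hB.t1
  have := hB.t4
  have := hB.gJ
  have := hB.gM₂
  have hG : IsGalois K₁ M₂ := IsGalois.tower_top_of_isGalois K K₁ M₂
  have hc : (finrank K M₂).Coprime p := by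
    have h1 : finrank K₁ M₂ = 1 := by
      rw [← IsGalois.card_aut_eq_finrank, Nat.card_eq_one_iff_unique]
      refine ⟨⟨fun σ τ => ?_⟩, ⟨1⟩⟩
      have h2 : ∀ σ : M₂ ≃ₐ[K₁] M₂, σ = 1 := by
        intro σ
        have h3 : AlgEquiv.restrictNormal (σ.restrictScalars K) J = 1 := by
          have h4 : Nat.card (J ≃ₐ[K] J) = 1 := by rw [IsGalois.card_aut_eq_finrank, hJ]
          exact @Subsingleton.elim _ (Nat.card_eq_one_iff_unique.1 h4).1 _ _
        have h5 : σ.restrictScalars K = 1 := by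
          apply hB.lin₂ _ (fun x => σ.commutes x)
          intro x
          have h6 := AlgEquiv.restrictNormal_commutes (σ.restrictScalars K) J x
          rw [h3] at h6
          exact h6.symm
        apply AlgEquiv.ext
        intro x
        exact congrArg (fun τ : M₂ ≃ₐ[K] M₂ => τ x) h5
      rw [h2 σ, h2 τ]
    have h2 : finrank K K₁ * finrank K₁ M₂ = finrank K M₂ := finrank_mul_finrank K K₁ M₂
    rw [← h2, h1, mul_one]
    exact cop_KM₁ hB.sit
  exact comb_zero hc hB.sit.irr E.toTauF β hβ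

/-- `J ≠ K`: one condition less. -/
theorem ext_JW (hEXT : V_EXTW) (hLINE : V_LINE) (hk : Nonempty (AlgebraicClosure ℚ →+* k))
    (hB : SitBs p K K K₁ K₁ J M₂ ε (1 : K ≃ₐ[K] K) (X - 1) a₀)
    (hμ : ¬ ∃ ξ : K, IsPrimitiveRoot ξ p) (L : IwasawaLog p k)
    (T : Set (K →+* k)) (B : Base p K K K₁ K₁ ε (1 : K ≃ₐ[K] K) (X - 1)) (D : BaseB B a₀)
    (a : K₁ˣ) (haO : OmType p K ε (a : K₁)) :
    ∃ E : TauW (B.S.card + T.ncard - 1) B a₀ L T a, NrmInd E.toTauF M₂ := by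
  have := hB.t1
  have := hB.sit.gK
  have hirr : Fact (Irreducible (X - 1 : (ZMod p)[X])) := ⟨hB.sit.irr⟩
  have hC : Pool.Agent.Helper11.LE.Cyc p K K₁ ε := ⟨hB.sit.prim, hB.sit.gK, hB.sit.gen⟩
  have h2K := Pool.Agent.Helper90.LE.l_cyc p K K₁ ε hC
  have hcK : IsTotallyComplex K₁ := h2K.2.2.2 (Pool.Agent.Helper77.PPO.p_ne_two p K hμ)
  obtain ⟨s, hs, -, hs2⟩ := hLINE p K K K₁ K₁ J M₂ ε 1 (X - 1) a₀ hB B D
  let lam : AdjoinRoot (X - 1 : (ZMod p)[X]) →+* ZMod p :=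
    AdjoinRoot.lift (RingHom.id (ZMod p)) 1 (by simp)
  have hlam : Function.Injective lam := lam.injective
  have hlamc : ∀ c : ZMod p, lam (algebraMap _ _ c) = c := by
    intro c
    show AdjoinRoot.lift (RingHom.id (ZMod p)) 1 _ (AdjoinRoot.of _ c) = c
    rw [AdjoinRoot.lift_of]
    rfl
  obtain ⟨E⟩ := extW1 hEXT hk hB L T B a haO
  generalize B.S.card + T.ncard = n at E ⊢
  -- the combinations which violate the condition
  have hline : ∀ β : Fin n → AdjoinRoot (X - 1 : (ZMod p)[X]),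
      (∀ i, ∑ j, β j * E.h j (B.u i) = 0) → (∀ x : M₂ˣ, ∑ j, β j * E.h j (nrm K M₂ x) = 0) →
      ∃ c : ZMod p, ∀ x : K₁ˣ, lam (∑ j, β j * E.h j (nrm K K₁ x)) = c * s x := by
    intro β h1 h2
    refine hs2 _ (kil_comb hB.toSitB B E.toTauF lam β h1) fun y => ?_
    have h3 : nrm K K₁ (nrm K₁ M₂ y) = nrm K M₂ y := by
      apply Units.ext
      exact Algebra.norm_norm (R := K) (S := K₁) (A := M₂)
    show lam (∑ j, β j * E.h j (nrm K K₁ (nrm K₁ M₂ y))) = 0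
    rw [h3, h2, map_zero]
  have hzero : ∀ β : Fin n → AdjoinRoot (X - 1 : (ZMod p)[X]),
      (∀ x : K₁ˣ, lam (∑ j, β j * E.h j (nrm K K₁ x)) = 0) → β = 0 := by
    intro β h1
    refine comb_zero (cop_KM₁ hB.sit) hB.sit.irr E.toTauF β fun x => ?_
    apply hlam
    rw [h1, map_zero]
  cases n with
  | zero => exact ⟨E, fun β _ _ => funext fun j => Fin.elim0 j⟩
  | succ n =>
    obtain ⟨j₀, hj₀⟩ : ∃ j₀ : Fin (n + 1), ∀ β : Fin (n + 1) → AdjoinRoot (X - 1 : (ZMod p)[X]),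
        (∀ i, ∑ j, β j * E.h j (B.u i) = 0) → (∀ x : M₂ˣ, ∑ j, β j * E.h j (nrm K M₂ x) = 0) →
        β j₀ = 0 → β = 0 := by
      by_cases hex : ∃ β : Fin (n + 1) → AdjoinRoot (X - 1 : (ZMod p)[X]),
          ((∀ i, ∑ j, β j * E.h j (B.u i) = 0) ∧
            ∀ x : M₂ˣ, ∑ j, β j * E.h j (nrm K M₂ x) = 0) ∧ β ≠ 0
      · obtain ⟨β₀, ⟨h01, h02⟩, hne⟩ := hex
        obtain ⟨j₀, hj₀⟩ : ∃ j₀, β₀ j₀ ≠ 0 := by
          by_contra hcon
          push Not at hcon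
          exact hne (funext hcon)
        refine ⟨j₀, fun β h1 h2 h0 => ?_⟩
        obtain ⟨c₀, hc₀⟩ := hline β₀ h01 h02
        obtain ⟨c, hc⟩ := hline β h1 h2
        have hγ : (fun j => algebraMap (ZMod p) _ c₀ * β j -
            algebraMap (ZMod p) _ c * β₀ j) = 0 := by
          refine hzero _ fun x => ?_
          have e : ∑ j, (algebraMap (ZMod p) _ c₀ * β j - algebraMap (ZMod p) _ c * β₀ j) *
              E.h j (nrm K K₁ x) = algebraMap (ZMod p) _ c₀ * ∑ j, β j * E.h j (nrm K K₁ x) -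
              algebraMap (ZMod p) _ c * ∑ j, β₀ j * E.h j (nrm K K₁ x) := by
            rw [Finset.mul_sum, Finset.mul_sum, ← Finset.sum_sub_distrib]
            exact Finset.sum_congr rfl fun j _ => by ring
          rw [e, map_sub, map_mul, map_mul, hlamc, hlamc, hc, hc₀]
          ring
        have h3 := congrFun hγ j₀
        have h4 : algebraMap (ZMod p) (AdjoinRoot (X - 1 : (ZMod p)[X])) c * β₀ j₀ = 0 := by
          have h5 : algebraMap (ZMod p) (AdjoinRoot (X - 1 : (ZMod p)[X])) c₀ * β j₀ -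
              algebraMap (ZMod p) (AdjoinRoot (X - 1 : (ZMod p)[X])) c * β₀ j₀ = 0 := h3
          rw [h0, mul_zero, zero_sub, neg_eq_zero] at h5
          exact h5
        have h5 := (mul_eq_zero.1 h4).resolve_right hj₀
        have h6 : c = 0 := (map_eq_zero _).1 h5
        refine hzero β fun x => ?_
        rw [hc, h6, zero_mul]
      · refine ⟨0, fun β h1 h2 _ => ?_⟩
        by_contra hne
        exact hex ⟨β, ⟨h1, h2⟩, hne⟩
    exact dropW E j₀ hj₀

end one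

/-- **W_EX1** from `V_EXTW` and `V_LINE`. -/
theorem w_ex1 (hEXT : V_EXTW) (hLINE : V_LINE) : W_EX1 := by
  intro p hp L K K₁ J M₂ _ _ _ _ _ _ _ _ _ _ _ _ _ ε a₀ hB hμ T B D aτ haO
  have hne : Nonempty (AlgebraicClosure ℚ →+* ℂ_[p]) :=
    Pool.Agent.Helper35.RD.nonempty_hom ℚ ℂ_[p]
  exact ⟨fun hJ => ext_oneW hEXT hne hB hJ L T B aτ haO,
    fun _ => ext_JW hEXT hLINE hne hB hμ L T B D aτ haO⟩

end Pool.Agent.Helper49.PW
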